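import Pool.Agent.Q66.RX.Stm

/-! JOB EXT of project RX (helper66): extension of homomorphisms to divisible groups. -/

set_option autoImplicit false

namespace Pool.Agent.Q113.RX

open Pool.Agent.Q66.RX

theorem t_EXT : S_EXT := by
  intro A D _ _ hD B f
  have inst : DivisibleBy (Additive D) ℤ := divisibleByOfSMulRightSurj (Additive D) ℤ (by
    intro n hn d
    obtain ⟨e, he⟩ := hD (Additive.toMul d) n.natAbs (Int.natAbs_pos.2 hn)
    rcases Int.natAbs_eq n with h | h
    · refine ⟨Additive.ofMul e, ?_⟩
      rw [h]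
      change Additive.ofMul (e ^ ((n.natAbs : ℤ))) = d
      rw [zpow_natCast, he]
      rfl
    · refine ⟨Additive.ofMul e⁻¹, ?_⟩
      rw [h]
      change Additive.ofMul (e⁻¹ ^ (-(n.natAbs : ℤ))) = d
      rw [zpow_neg, zpow_natCast, inv_pow, inv_inv, he]
      rfl)
  obtain ⟨h, hh⟩ := (Module.Baer.of_divisible (Additive D)).extension_property_addMonoidHom
    (MonoidHom.toAdditive B.subtype) (fun a b hab => Subtype.ext hab) (MonoidHom.toAdditive f)
  refine ⟨MonoidHom.toAdditive.symm h, fun b => ?_⟩
  exact congrArg Additive.toMul (DFunLike.congr_fun hh (Additive.ofMul b))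

end Pool.Agent.Q113.RX
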